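import Mathlib
import Pool.Agent.R921.SP.Defs

open MeasureTheory Metric Set Filter Topology
open scoped ENNReal

noncomputable section

namespace Pool.Agent.R748.SPE

open Pool.Agent.R921.SP

/-- index equivalence -/
def sig (m : ℕ) : Fin 2 ⊕ Fin m ≃ Fin (m + 2) :=
  finSumFinEquiv.trans (finCongr (by omega))

lemma sig_inl0 (m : ℕ) : sig m (Sum.inl 0) = 0 := by
  ext; simp [sig]

lemma sig_inl1 (m : ℕ) : sig m (Sum.inl 1) = 1 := by
  ext; simp [sig]

lemma sig_inr (m : ℕ) (j : Fin m) : sig m (Sum.inr j) = j.succ.succ := by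
  ext; simp [sig]

/-- the decomposition of `ℝ^(m+2)` preserves the measure -/
theorem mp_split (m : ℕ) :
    MeasurePreserving (fun p : V (m + 2) => (px p, pz p)) volume
      ((volume : Measure Pl).prod (volume : Measure (V m))) := by
  have h1 := PiLp.volume_preserving_ofLp (Fin (m + 2))
  have h2 := (volume_measurePreserving_piCongrLeft (fun _ : Fin (m + 2) => ℝ) (sig m)).symm
  have h3 := volume_measurePreserving_sumPiEquivProdPi (fun _ : Fin 2 ⊕ Fin m => ℝ)
  have h4 := (PiLp.volume_preserving_toLp (Fin 2)).prod (PiLp.volume_preserving_toLp (Fin m))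
  have h := h4.comp (h3.comp (h2.comp h1))
  have heq : (fun p : V (m + 2) => (px p, pz p)) = (Prod.map (WithLp.toLp 2) (WithLp.toLp 2) ∘
      (MeasurableEquiv.sumPiEquivProdPi fun _ : Fin 2 ⊕ Fin m => ℝ) ∘
        (MeasurableEquiv.piCongrLeft (fun _ : Fin (m + 2) => ℝ) (sig m)).symm ∘ WithLp.ofLp) := by
    funext p
    simp only [Function.comp_apply, Prod.map]
    refine Prod.ext ?_ ?_
    · simp only [px]
      ext i
      fin_cases i
      · simp [MeasurableEquiv.piCongrLeft, MeasurableEquiv.sumPiEquivProdPi, sig_inl0,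
          Equiv.piCongrLeft, Equiv.sumPiEquivProdPi]
      · simp [MeasurableEquiv.piCongrLeft, MeasurableEquiv.sumPiEquivProdPi, sig_inl1,
          Equiv.piCongrLeft, Equiv.sumPiEquivProdPi]
    · simp only [pz]
      ext j
      simp [MeasurableEquiv.piCongrLeft, MeasurableEquiv.sumPiEquivProdPi, sig_inr,
          Equiv.piCongrLeft, Equiv.sumPiEquivProdPi]
  rw [heq]
  exact h

/-- the point of the plane with coordinate `j` equal to `b` and the other one equal to `a` -/
def ept (j : Fin 2) (a b : ℝ) : Pl := if j = 0 then !₂[b, a] else !₂[a, b]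

lemma mp_pl (j : Fin 2) :
    MeasurePreserving (fun q : ℝ × ℝ => ept j q.1 q.2) (volume.prod volume) volume := by
  have h1 := (volume_preserving_finTwoArrow ℝ).symm
  have h2 := PiLp.volume_preserving_toLp (Fin 2)
  have h3 := h2.comp h1
  fin_cases j
  · have h4 := h3.comp (Measure.measurePreserving_swap (μ := (volume : Measure ℝ))
      (ν := (volume : Measure ℝ)))
    have heq : (fun q : ℝ × ℝ => ept 0 q.1 q.2) =
        (WithLp.toLp 2 ∘ MeasurableEquiv.finTwoArrow.symm) ∘ Prod.swap := by
      funext q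
      simp only [ept]
      ext i
      fin_cases i <;> simp [MeasurableEquiv.finTwoArrow, MeasurableEquiv.piFinTwo]
    show MeasurePreserving (fun q : ℝ × ℝ => ept 0 q.1 q.2) (volume.prod volume) volume
    rw [heq]
    exact h4
  · have heq : (fun q : ℝ × ℝ => ept 1 q.1 q.2) =
        (WithLp.toLp 2 ∘ MeasurableEquiv.finTwoArrow.symm) := by
      funext q
      simp only [ept]
      ext i
      fin_cases i <;> simp [MeasurableEquiv.finTwoArrow, MeasurableEquiv.piFinTwo]
    show MeasurePreserving (fun q : ℝ × ℝ => ept 1 q.1 q.2) (volume.prod volume) volume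
    rw [heq]
    exact h3

end Pool.Agent.R748.SPE
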