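import Mathlib
import Pool.Agent.R748.SPE.Coord

open MeasureTheory Metric Set Filter Topology
open scoped ENNReal

noncomputable section

namespace Pool.Agent.R748.SPE

open Pool.Agent.R921.SP

lemma ept_eq (j : Fin 2) (a b : ℝ) :
    ept j a b = ept j a 0 + b • EuclideanSpace.single j (1 : ℝ) := by
  ext i
  fin_cases j <;> fin_cases i <;> simp [ept]

lemma ept_cont (j : Fin 2) (a : ℝ) : Continuous (fun b => ept j a b) := by
  have : (fun b => ept j a b) = fun b => ept j a 0 + b • EuclideanSpace.single j (1 : ℝ) := by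
    funext b; exact ept_eq j a b
  rw [this]
  fun_prop

lemma ept_surj (j : Fin 2) (x : Pl) : ept j (x (1 - j)) (x j) = x := by
  ext i
  fin_cases j <;> fin_cases i <;> simp [ept]

lemma ept_fst (j : Fin 2) (a b : ℝ) : (ept j a b) (1 - j) = a := by
  fin_cases j <;> simp [ept]

lemma ept_snd (j : Fin 2) (a b : ℝ) : (ept j a b) j = b := by
  fin_cases j <;> simp [ept]

lemma ept_norm (j : Fin 2) (a b : ℝ) : |a| ≤ ‖ept j a b‖ ∧ |b| ≤ ‖ept j a b‖ := by
  constructor
  · have := PiLp.norm_apply_le (p := 2) (ept j a b) (1 - j)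
    rwa [ept_fst, Real.norm_eq_abs] at this
  · have := PiLp.norm_apply_le (p := 2) (ept j a b) j
    rwa [ept_snd, Real.norm_eq_abs] at this

lemma sec_compact (j : Fin 2) {K : Set Pl} (hK : IsCompact K) (a : ℝ) :
    IsCompact {b : ℝ | ept j a b ∈ K} := by
  obtain ⟨R, hR⟩ := hK.isBounded.subset_closedBall 0
  apply (isCompact_Icc (a := -R) (b := R)).of_isClosed_subset
  · exact hK.isClosed.preimage (ept_cont j a)
  · intro b hb
    have h1 := hR hb
    rw [mem_closedBall_zero_iff] at h1
    have h2 := (ept_norm j a b).2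
    exact abs_le.1 (h2.trans h1)

lemma sec_conv (j : Fin 2) {K : Set Pl} (hK : Convex ℝ K) (a : ℝ) {b₁ b₂ b : ℝ}
    (h1 : ept j a b₁ ∈ K) (h2 : ept j a b₂ ∈ K) (hb1 : b₁ ≤ b) (hb2 : b ≤ b₂) :
    ept j a b ∈ K := by
  rcases eq_or_lt_of_le (hb1.trans hb2) with h | h
  · have : b = b₁ := le_antisymm (hb2.trans h.ge) hb1
    rwa [this]
  · have h3 : 0 < b₂ - b₁ := by linarith
    have h4 := hK h1 h2 (a := (b₂ - b) / (b₂ - b₁)) (b := (b - b₁) / (b₂ - b₁))
      (div_nonneg (by linarith) h3.le) (div_nonneg (by linarith) h3.le) (by field_simp; ring)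
    convert h4 using 1
    rw [ept_eq j a b, ept_eq j a b₁, ept_eq j a b₂]
    have h5 : b = (b₂ - b) / (b₂ - b₁) * b₁ + (b - b₁) / (b₂ - b₁) * b₂ := by
      field_simp
      ring
    have h6 : (b₂ - b) / (b₂ - b₁) + (b - b₁) / (b₂ - b₁) = 1 := by
      field_simp
      ring
    rw [smul_add, smul_add, smul_smul, smul_smul]
    calc ept j a 0 + b • EuclideanSpace.single j (1:ℝ)
        = (((b₂ - b) / (b₂ - b₁) + (b - b₁) / (b₂ - b₁)) • ept j a 0) +
          ((b₂ - b) / (b₂ - b₁) * b₁ + (b - b₁) / (b₂ - b₁) * b₂) •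
            EuclideanSpace.single j (1:ℝ) := by rw [← h5, h6, one_smul]
      _ = _ := by rw [add_smul, add_smul]; abel

lemma sec_cases (j : Fin 2) {K : Set Pl} (hK : IsCompact K) (hc : Convex ℝ K) (a : ℝ) :
    {b : ℝ | ept j a b ∈ K} = ∅ ∨ ∃ α β, α ≤ β ∧ {b : ℝ | ept j a b ∈ K} = Icc α β := by
  rcases ({b : ℝ | ept j a b ∈ K}).eq_empty_or_nonempty with h | h
  · exact Or.inl h
  · right
    obtain ⟨α, hα⟩ := (sec_compact j hK a).exists_isLeast h
    obtain ⟨β, hβ⟩ := (sec_compact j hK a).exists_isGreatest h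
    refine ⟨α, β, hα.2 hβ.1, ?_⟩
    ext b
    constructor
    · intro hb; exact ⟨hα.2 hb, hβ.2 hb⟩
    · intro hb; exact sec_conv j hc a hα.1 hβ.1 hb.1 hb.2

lemma ept_hasDeriv (j : Fin 2) {g : Pl → ℝ} (hg : ContDiff ℝ 1 g) (a b : ℝ) :
    HasDerivAt (fun b => g (ept j a b))
      (fderiv ℝ g (ept j a b) (EuclideanSpace.single j 1)) b := by
  have h1 : HasDerivAt (fun b => ept j a b) (EuclideanSpace.single j (1:ℝ)) b := by
    have : (fun b => ept j a b) = fun b => ept j a 0 + b • EuclideanSpace.single j (1 : ℝ) := by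
      funext b; exact ept_eq j a b
    rw [this]
    simpa using ((hasDerivAt_id b).smul_const (EuclideanSpace.single j (1:ℝ))).const_add (ept j a 0)
  exact ((hg.differentiable (by simp) _).hasFDerivAt).comp_hasDerivAt b h1

lemma fd_cont {g : Pl → ℝ} (hg : ContDiff ℝ 1 g) (v : Pl) :
    Continuous (fun x => fderiv ℝ g x v) :=
  (hg.continuous_fderiv (by simp)).clm_apply continuous_const

/-- the inner integral -/
lemma inner_eq (j : Fin 2) {g : Pl → ℝ} (hg : ContDiff ℝ 1 g) (a : ℝ) {α β : ℝ} (h : α ≤ β) :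
    ∫ b in Icc α β, fderiv ℝ g (ept j a b) (EuclideanSpace.single j 1)
      = g (ept j a β) - g (ept j a α) := by
  rw [integral_Icc_eq_integral_Ioc, ← intervalIntegral.integral_of_le h]
  apply intervalIntegral.integral_eq_sub_of_hasDerivAt
  · intro b _
    exact ept_hasDeriv j hg a b
  · exact ((fd_cont hg _).comp (ept_cont j a)).intervalIntegrable _ _

theorem planar_bound (j : Fin 2) {K Km : Set Pl} (hK : IsCompact K) (hKc : Convex ℝ K)
    (hKm : IsCompact Km) (hKmc : Convex ℝ Km) (hsub : K ⊆ Km) {Sh : Set ℝ}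
    (hSh : MeasurableSet Sh) (hShf : volume Sh ≠ ⊤)
    (hsh : ∀ a, a ∉ Sh → ∀ b, ept j a b ∈ Km → ept j a b ∈ K)
    {g : Pl → ℝ} (hg : ContDiff ℝ 1 g) (hg1 : ∀ x, |g x| ≤ 1) (hg0 : ∀ x ∈ frontier Km, g x = 0) :
    |∫ x in K, fderiv ℝ g x (EuclideanSpace.single j 1)| ≤ 2 * (volume Sh).toReal := by
  set F : Pl → ℝ := fun x => fderiv ℝ g x (EuclideanSpace.single j 1) with hF
  have hFc : Continuous F := fd_cont hg _
  have hint : IntegrableOn F K := hFc.continuousOn.integrableOn_compact hK
  have h0 := mp_pl j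
  -- reduction to iterated integrals
  have h1 : ∫ x in K, F x = ∫ a, ∫ b in {b : ℝ | ept j a b ∈ K}, F (ept j a b) := by
    rw [← integral_indicator hK.measurableSet]
    have hi : Integrable (K.indicator F) := hint.integrable_indicator hK.measurableSet
    rw [← h0.map_eq, integral_map h0.measurable.aemeasurable
      (by rw [h0.map_eq]; exact hi.aestronglyMeasurable)]
    have hi2 : Integrable (fun q : ℝ × ℝ => K.indicator F (ept j q.1 q.2)) (volume.prod volume) :=
      (h0.integrable_comp hi.aestronglyMeasurable).2 hi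
    rw [integral_prod _ hi2]
    congr 1
    funext a
    rw [← integral_indicator (sec_compact j hK a).measurableSet]
    rfl
  rw [h1, ← Real.norm_eq_abs]
  have h2 : ∀ a, ‖∫ b in {b : ℝ | ept j a b ∈ K}, F (ept j a b)‖ ≤
      Sh.indicator (fun _ => (2:ℝ)) a := by
    intro a
    rcases sec_cases j hK hKc a with h | ⟨α, β, hαβ, h⟩
    · rw [h]
      simp only [setIntegral_empty, norm_zero]
      exact indicator_nonneg (fun _ _ => by norm_num) a
    · rw [h, inner_eq j hg a hαβ]
      by_cases ha : a ∈ Sh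
      · rw [indicator_of_mem ha, Real.norm_eq_abs]
        have h3 := abs_le.1 (hg1 (ept j a α))
        have h4 := abs_le.1 (hg1 (ept j a β))
        rw [abs_le]
        constructor <;> linarith [h3.1, h3.2, h4.1, h4.2]
      · rw [indicator_of_notMem ha]
        have hα : ept j a α ∈ K := by
          have : α ∈ {b : ℝ | ept j a b ∈ K} := by rw [h]; exact left_mem_Icc.2 hαβ
          exact this
        have hβ : ept j a β ∈ K := by
          have : β ∈ {b : ℝ | ept j a b ∈ K} := by rw [h]; exact right_mem_Icc.2 hαβ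
          exact this
        have hfr : ∀ b ∈ Icc α β, (∀ ε > 0, ∃ b', |b' - b| < ε ∧ b' ∉ Icc α β) →
            g (ept j a b) = 0 := by
          intro b hb hε
          apply hg0
          rw [frontier_eq_closure_inter_closure]
          refine ⟨subset_closure (hsub (sec_conv j hKc a hα hβ hb.1 hb.2)), ?_⟩
          have hmap : ept j a b ∈ closure ((fun b => ept j a b) '' (Icc α β)ᶜ) := by
            apply image_closure_subset_closure_image (ept_cont j a)
            refine ⟨b, ?_, rfl⟩
            rw [Metric.mem_closure_iff]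
            intro ε hε'
            obtain ⟨b', h1, h2⟩ := hε ε hε'
            exact ⟨b', h2, by rw [dist_comm, Real.dist_eq]; exact h1⟩
          apply closure_mono _ hmap
          rintro _ ⟨b', hb', rfl⟩ hmem
          apply hb'
          have : b' ∈ {b : ℝ | ept j a b ∈ K} := hsh a ha b' hmem
          rwa [h] at this
        have e1 := hfr β (right_mem_Icc.2 hαβ) (by
          intro ε hε
          refine ⟨β + ε / 2, ?_, fun hh => by linarith [hh.2]⟩
          rw [show β + ε / 2 - β = ε / 2 by ring, abs_of_pos (by linarith)]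
          linarith)
        have e2 := hfr α (left_mem_Icc.2 hαβ) (by
          intro ε hε
          refine ⟨α - ε / 2, ?_, fun hh => by linarith [hh.1]⟩
          rw [show α - ε / 2 - α = -(ε / 2) by ring, abs_neg, abs_of_pos (by linarith)]
          linarith)
        rw [e1, e2]
        simp
  have h3 : Integrable (Sh.indicator (fun _ => (2:ℝ))) :=
    (integrableOn_const hShf).integrable_indicator hSh
  refine (norm_integral_le_of_norm_le h3 (ae_of_all _ h2)).trans ?_
  rw [integral_indicator hSh, integral_const, smul_eq_mul, Measure.real, Measure.restrict_apply_univ]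
  linarith

end Pool.Agent.R748.SPE
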