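import Mathlib
import Pool.Agent.R748.SPE.Planar

open MeasureTheory Metric Set Filter Topology
open scoped ENNReal

noncomputable section

namespace Pool.Agent.R748.SPE

open Pool.Agent.R921.SP

/-- the projection as a linear map -/
def pxL (m : ℕ) : V (m + 2) →L[ℝ] Pl :=
  LinearMap.toContinuousLinearMap
    { toFun := px
      map_add' := by
        intro a b
        ext i
        fin_cases i <;> simp [px]
      map_smul' := by
        intro a b
        ext i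
        fin_cases i <;> simp [px] }

/-- the other projection as a linear map -/
def pzL (m : ℕ) : V (m + 2) →L[ℝ] V m :=
  LinearMap.toContinuousLinearMap
    { toFun := pz
      map_add' := by
        intro a b
        ext i
        simp [pz]
      map_smul' := by
        intro a b
        ext i
        simp [pz] }

lemma pxL_apply (m : ℕ) (p : V (m + 2)) : pxL m p = px p := rfl
lemma pzL_apply (m : ℕ) (p : V (m + 2)) : pzL m p = pz p := rfl

lemma px_single0 (m : ℕ) : px (EuclideanSpace.single (0 : Fin (m + 2)) (1:ℝ)) =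
    EuclideanSpace.single 0 1 := by
  ext i; fin_cases i <;> simp [px]

lemma px_single1 (m : ℕ) : px (EuclideanSpace.single (1 : Fin (m + 2)) (1:ℝ)) =
    EuclideanSpace.single 1 1 := by
  ext i; fin_cases i <;> simp [px]

lemma px_singles (m : ℕ) (j : Fin m) :
    px (EuclideanSpace.single (j.succ.succ : Fin (m + 2)) (1:ℝ)) = 0 := by
  ext i
  fin_cases i
  · simp [px]
  · simp [px, Fin.ext_iff]

lemma pz_singles (m : ℕ) (j : Fin m) :
    pz (EuclideanSpace.single (j.succ.succ : Fin (m + 2)) (1:ℝ)) = EuclideanSpace.single j 1 := by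
  ext i
  simp [pz]

lemma norm_split {m : ℕ} (p : V (m + 2)) : ‖p‖ ^ 2 = ‖px p‖ ^ 2 + ‖pz p‖ ^ 2 := by
  rw [EuclideanSpace.norm_sq_eq, EuclideanSpace.norm_sq_eq, EuclideanSpace.norm_sq_eq,
    Fin.sum_univ_succ, Fin.sum_univ_succ, Fin.sum_univ_two]
  simp [px, pz]
  ring

/-- the components of the field `x / √(|x|² + ε²)` -/
def cmp {n : ℕ} (ε : ℝ) (i : Fin n) (x : V n) : ℝ := x i / √(‖x‖ ^ 2 + ε ^ 2)

lemma rt_pos {n : ℕ} {ε : ℝ} (hε : 0 < ε) (x : V n) : 0 < √(‖x‖ ^ 2 + ε ^ 2) :=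
  Real.sqrt_pos.2 (by positivity)

lemma rt_sq {n : ℕ} {ε : ℝ} (x : V n) : √(‖x‖ ^ 2 + ε ^ 2) ^ 2 = ‖x‖ ^ 2 + ε ^ 2 :=
  Real.sq_sqrt (by positivity)

lemma cmp_sum {n : ℕ} {ε : ℝ} (hε : 0 < ε) (x : V n) : ∑ i, cmp ε i x ^ 2 ≤ 1 := by
  have h := rt_pos hε x
  have h1 : ∑ i, cmp ε i x ^ 2 = ‖x‖ ^ 2 / (‖x‖ ^ 2 + ε ^ 2) := by
    simp only [cmp, div_pow, rt_sq]
    rw [← Finset.sum_div, EuclideanSpace.norm_sq_eq]
    simp
  rw [h1, div_le_one (by positivity)]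
  nlinarith [sq_nonneg ε]

lemma cmp_abs {n : ℕ} {ε : ℝ} (hε : 0 < ε) (i : Fin n) (x : V n) : |cmp ε i x| ≤ 1 := by
  have h1 := cmp_sum hε x
  have h2 : cmp ε i x ^ 2 ≤ ∑ i, cmp ε i x ^ 2 :=
    Finset.single_le_sum (f := fun i => cmp ε i x ^ 2) (fun _ _ => sq_nonneg _) (Finset.mem_univ i)
  rw [← sq_le_one_iff_abs_le_one]
  linarith

lemma rt_contDiff {n : ℕ} {ε : ℝ} (hε : 0 < ε) :
    ContDiff ℝ 1 (fun x : V n => √(‖x‖ ^ 2 + ε ^ 2)) := by
  apply ContDiff.sqrt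
  · exact (contDiff_norm_sq ℝ).add contDiff_const
  · intro x; positivity

lemma cmp_contDiff {n : ℕ} {ε : ℝ} (hε : 0 < ε) (i : Fin n) :
    ContDiff ℝ 1 (cmp ε i : V n → ℝ) := by
  apply ContDiff.div
  · exact (EuclideanSpace.proj (𝕜 := ℝ) i : V n →L[ℝ] ℝ).contDiff
  · exact rt_contDiff hε
  · intro x; exact (rt_pos hε x).ne'

lemma cmp_fderiv {n : ℕ} {ε : ℝ} (hε : 0 < ε) (i : Fin n) (x : V n) :
    fderiv ℝ (cmp ε i) x (EuclideanSpace.single i 1) =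
      1 / √(‖x‖ ^ 2 + ε ^ 2) - x i ^ 2 / √(‖x‖ ^ 2 + ε ^ 2) ^ 3 := by
  have hr := rt_pos hε x
  -- along the line
  have h1 : HasDerivAt (fun t : ℝ => cmp ε i (x + t • EuclideanSpace.single i (1:ℝ)))
      (fderiv ℝ (cmp ε i) x (EuclideanSpace.single i 1)) 0 := by
    have h2 : HasDerivAt (fun t : ℝ => x + t • EuclideanSpace.single i (1:ℝ))
        (EuclideanSpace.single i (1:ℝ)) 0 := by
      simpa using ((hasDerivAt_id (0:ℝ)).smul_const (EuclideanSpace.single i (1:ℝ))).const_add x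
    have h3 := ((cmp_contDiff hε i).differentiable (by simp)
      (x + (0:ℝ) • EuclideanSpace.single i (1:ℝ))).hasFDerivAt.comp_hasDerivAt 0 h2
    rw [zero_smul, add_zero] at h3
    exact h3
  have h4 : (fun t : ℝ => cmp ε i (x + t • EuclideanSpace.single i (1:ℝ))) =
      fun t => (x i + t) / √(‖x‖ ^ 2 + 2 * t * x i + t ^ 2 + ε ^ 2) := by
    funext t
    simp only [cmp]
    congr 1
    · simp
    · congr 2
      rw [norm_add_sq_real, norm_smul]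
      simp [inner_smul_right, EuclideanSpace.inner_single_right]
      ring
  rw [h4] at h1
  have h5 : HasDerivAt (fun t : ℝ => (x i + t) / √(‖x‖ ^ 2 + 2 * t * x i + t ^ 2 + ε ^ 2))
      ((1 * √(‖x‖ ^ 2 + 2 * 0 * x i + 0 ^ 2 + ε ^ 2) - (x i + 0) *
        ((2 * x i) / (2 * √(‖x‖ ^ 2 + 2 * 0 * x i + 0 ^ 2 + ε ^ 2)))) /
        √(‖x‖ ^ 2 + 2 * 0 * x i + 0 ^ 2 + ε ^ 2) ^ 2) 0 := by
    apply HasDerivAt.div
    · exact (hasDerivAt_id (0:ℝ)).const_add (x i)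
    · apply HasDerivAt.sqrt
      · have e1 : HasDerivAt (fun t : ℝ => ‖x‖ ^ 2 + 2 * t * x i + t ^ 2 + ε ^ 2)
          (0 + 2 * 1 * x i + 2 * 0 ^ (2 - 1) * 1 + 0) 0 := by
          apply HasDerivAt.add_const
          apply HasDerivAt.add
          · have := (((hasDerivAt_id (0:ℝ)).const_mul 2).mul_const (x i)).const_add (‖x‖ ^ 2)
            simpa using this
          · simpa using hasDerivAt_pow 2 (0:ℝ)
        simpa using e1
      · simp only [mul_zero, zero_mul, add_zero, ne_eq, OfNat.ofNat_ne_zero, not_false_eq_true,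
          zero_pow]
        positivity
    · simp only [mul_zero, zero_mul, add_zero, ne_eq, OfNat.ofNat_ne_zero, not_false_eq_true,
          zero_pow]
      exact hr.ne'
  rw [h1.unique h5]
  simp only [mul_zero, zero_mul, add_zero, ne_eq, OfNat.ofNat_ne_zero, not_false_eq_true,
          zero_pow, one_mul]
  field_simp

/-- the divergence of `x / √(|x|² + ε²)` -/
def dcmp {n : ℕ} (ε : ℝ) (x : V n) : ℝ :=
  n / √(‖x‖ ^ 2 + ε ^ 2) - ‖x‖ ^ 2 / √(‖x‖ ^ 2 + ε ^ 2) ^ 3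

lemma cmp_div {n : ℕ} {ε : ℝ} (hε : 0 < ε) (x : V n) :
    ∑ i, fderiv ℝ (cmp ε i) x (EuclideanSpace.single i 1) = dcmp ε x := by
  have h1 : ∑ i, x i ^ 2 = ‖x‖ ^ 2 := by
    rw [EuclideanSpace.norm_sq_eq]; simp
  simp only [cmp_fderiv hε]
  rw [Finset.sum_sub_distrib, ← Finset.sum_div, ← Finset.sum_div, h1, dcmp]
  simp

lemma dcmp_cont {n : ℕ} {ε : ℝ} (hε : 0 < ε) : Continuous (dcmp ε : V n → ℝ) := by
  unfold dcmp
  have h := (rt_contDiff (n := n) hε).continuous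
  apply Continuous.sub
  · exact continuous_const.div h fun x => (rt_pos hε x).ne'
  · exact (by fun_prop : Continuous fun x : V n => ‖x‖ ^ 2).div (h.pow 3)
      fun x => (pow_pos (rt_pos hε x) 3).ne'

lemma dcmp_abs {n : ℕ} {ε : ℝ} (hε : 0 < ε) (x : V n) : |dcmp ε x| ≤ (n + 1) / ε := by
  have hr := rt_pos hε x
  have h1 : ε ≤ √(‖x‖ ^ 2 + ε ^ 2) := by
    apply Real.le_sqrt_of_sq_le
    nlinarith [sq_nonneg ‖x‖]
  have h2 : 0 ≤ (n:ℝ) / √(‖x‖ ^ 2 + ε ^ 2) := by positivity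
  have h3 : (n:ℝ) / √(‖x‖ ^ 2 + ε ^ 2) ≤ n / ε :=
    div_le_div_of_nonneg_left (by positivity) hε h1
  have h4 : 0 ≤ ‖x‖ ^ 2 / √(‖x‖ ^ 2 + ε ^ 2) ^ 3 := by positivity
  have h5 : ‖x‖ ^ 2 / √(‖x‖ ^ 2 + ε ^ 2) ^ 3 ≤ 1 / ε := by
    rw [show √(‖x‖ ^ 2 + ε ^ 2) ^ 3 = √(‖x‖ ^ 2 + ε ^ 2) ^ 2 * √(‖x‖ ^ 2 + ε ^ 2) by ring,
      ← div_div, rt_sq]
    apply div_le_div₀ zero_le_one _ hε h1
    rw [div_le_one (by positivity)]
    nlinarith [sq_nonneg ε]
  have h6 : ((n:ℝ) + 1) / ε = n / ε + 1 / ε := by ring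
  have h7 : 0 ≤ (n:ℝ) / ε := by positivity
  have h8 : 0 ≤ 1 / ε := by positivity
  unfold dcmp
  rw [h6, abs_le]
  constructor <;> linarith

lemma dv_eq (m : ℕ) (ε : ℝ) (p : V (m + 2)) : dv m ε p = dcmp ε (px p) + dcmp ε (pz p) := by
  simp [dv, dcmp]

end Pool.Agent.R748.SPE
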