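import Mathlib
import Pool.Agent.R748.SPE.Fields

open MeasureTheory Metric Set Filter Topology
open scoped ENNReal

noncomputable section

namespace Pool.Agent.R748.SPE

open Pool.Agent.R921.SP

/-- the test field before cutting off -/
def wf (m : ℕ) (ε : ℝ) (η : Pl → ℝ) (p : V (m + 2)) : V (m + 2) :=
  WithLp.toLp 2 (Fin.cons ((1 - η (px p)) * cmp ε 0 (px p))
    (Fin.cons ((1 - η (px p)) * cmp ε 1 (px p)) (fun j => η (px p) * cmp ε j (pz p))))

lemma wf0 (m : ℕ) (ε : ℝ) (η : Pl → ℝ) (p : V (m + 2)) :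
    wf m ε η p 0 = (1 - η (px p)) * cmp ε 0 (px p) := rfl

lemma wf1 (m : ℕ) (ε : ℝ) (η : Pl → ℝ) (p : V (m + 2)) :
    wf m ε η p 1 = (1 - η (px p)) * cmp ε 1 (px p) := rfl

lemma wfs (m : ℕ) (ε : ℝ) (η : Pl → ℝ) (p : V (m + 2)) (j : Fin m) :
    wf m ε η p j.succ.succ = η (px p) * cmp ε j (pz p) := rfl

lemma fin_cases2 {m : ℕ} {P : Fin (m + 2) → Prop} (h0 : P 0) (h1 : P 1)
    (hs : ∀ j : Fin m, P j.succ.succ) (i : Fin (m + 2)) : P i := by
  refine Fin.cases h0 (fun k => ?_) i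
  refine Fin.cases h1 (fun j => ?_) k
  exact hs j

lemma wf_contDiff {m : ℕ} {ε : ℝ} (hε : 0 < ε) {η : Pl → ℝ} (hη : ContDiff ℝ 1 η) :
    ContDiff ℝ 1 (wf m ε η) := by
  rw [contDiff_euclidean]
  have hx : ContDiff ℝ 1 (fun p : V (m + 2) => px p) := (pxL m).contDiff
  have hz : ContDiff ℝ 1 (fun p : V (m + 2) => pz p) := (pzL m).contDiff
  have h1 : ContDiff ℝ 1 (fun p : V (m + 2) => η (px p)) := hη.comp hx
  apply fin_cases2
  · simp only [wf0]
    exact (contDiff_const.sub h1).mul ((cmp_contDiff hε 0).comp hx)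
  · simp only [wf1]
    exact (contDiff_const.sub h1).mul ((cmp_contDiff hε 1).comp hx)
  · intro j
    simp only [wfs]
    exact h1.mul ((cmp_contDiff hε j).comp hz)

lemma wf_norm {m : ℕ} {ε : ℝ} (hε : 0 < ε) {η : Pl → ℝ} (hη : ∀ x, 0 ≤ η x ∧ η x ≤ 1)
    (p : V (m + 2)) : ‖wf m ε η p‖ ≤ 1 := by
  rw [← sq_le_one_iff₀ (norm_nonneg _), EuclideanSpace.norm_sq_eq, Fin.sum_univ_succ,
    Fin.sum_univ_succ]
  have h0 : ((0 : Fin (m + 1)).succ : Fin (m + 2)) = 1 := rfl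
  rw [h0]
  simp only [wf0, wf1, wfs, Real.norm_eq_abs, sq_abs, mul_pow]
  rw [← Finset.mul_sum]
  have h1 := cmp_sum hε (px p)
  rw [Fin.sum_univ_two] at h1
  have h2 := cmp_sum hε (pz p)
  obtain ⟨h3, h4⟩ := hη (px p)
  have h5 : (1 - η (px p)) ^ 2 * (cmp ε 0 (px p) ^ 2 + cmp ε 1 (px p) ^ 2) ≤
      (1 - η (px p)) ^ 2 * 1 := mul_le_mul_of_nonneg_left h1 (sq_nonneg _)
  have h6 : η (px p) ^ 2 * (∑ i, cmp ε i (pz p) ^ 2) ≤ η (px p) ^ 2 * 1 :=
    mul_le_mul_of_nonneg_left h2 (sq_nonneg _)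
  nlinarith

/-- the planar divergence of `η x / √(|x|² + ε²)` -/
def Dx (ε : ℝ) (η : Pl → ℝ) (x : Pl) : ℝ :=
  ∑ i : Fin 2, fderiv ℝ (fun y => η y * cmp ε i y) x (EuclideanSpace.single i 1)

lemma Dx_cont {ε : ℝ} (hε : 0 < ε) {η : Pl → ℝ} (hη : ContDiff ℝ 1 η) :
    Continuous (Dx ε η) := by
  unfold Dx
  apply continuous_finsetSum
  intro i _
  exact fd_cont (hη.mul (cmp_contDiff hε i)) _

lemma comp_fderiv {n k : ℕ} {w : V n → V k} {p : V n} (hw : DifferentiableAt ℝ w p) (i : Fin k)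
    (v : V n) : (fderiv ℝ w p v) i = fderiv ℝ (fun q => w q i) p v := by
  have h1 := (EuclideanSpace.proj (𝕜 := ℝ) i : V k →L[ℝ] ℝ).hasFDerivAt.comp p hw.hasFDerivAt
  have h2 : fderiv ℝ (fun q => w q i) p =
      (EuclideanSpace.proj (𝕜 := ℝ) i : V k →L[ℝ] ℝ).comp (fderiv ℝ w p) := h1.fderiv
  rw [h2]
  rfl

lemma wf_div {m : ℕ} {ε : ℝ} (hε : 0 < ε) {η : Pl → ℝ} (hη : ContDiff ℝ 1 η) (p : V (m + 2)) :
    divg (wf m ε η) p = dv m ε p - Dx ε η (px p) - (1 - η (px p)) * dcmp ε (pz p) := by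
  have hw : DifferentiableAt ℝ (wf m ε η) p := (wf_contDiff hε hη).differentiable (by simp) p
  unfold divg
  simp only [comp_fderiv hw]
  rw [Fin.sum_univ_succ, Fin.sum_univ_succ]
  have h0 : ((0 : Fin (m + 1)).succ : Fin (m + 2)) = 1 := rfl
  rw [h0]
  simp only [wf0, wf1, wfs]
  -- planar components
  have hG : ∀ i : Fin 2, ContDiff ℝ 1 (fun y : Pl => (1 - η y) * cmp ε i y) := fun i =>
    (contDiff_const.sub hη).mul (cmp_contDiff hε i)
  have hxc : ∀ (i : Fin 2) (v : V (m + 2)), fderiv ℝ (fun q : V (m + 2) => (1 - η (px q)) *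
      cmp ε i (px q)) p v = fderiv ℝ (cmp ε i) (px p) (px v) -
        fderiv ℝ (fun y => η y * cmp ε i y) (px p) (px v) := by
    intro i v
    have e1 : HasFDerivAt (fun q : V (m + 2) => px q) (pxL m) p := (pxL m).hasFDerivAt
    have e2 := ((hG i).differentiable (by simp) (px p)).hasFDerivAt.comp p e1
    have e3 : fderiv ℝ (fun q : V (m + 2) => (1 - η (px q)) * cmp ε i (px q)) p =
      (fderiv ℝ (fun y : Pl => (1 - η y) * cmp ε i y) (px p)).comp (pxL m) := e2.fderiv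
    rw [e3, ContinuousLinearMap.comp_apply, pxL_apply]
    have e4 : (fun y : Pl => (1 - η y) * cmp ε i y) = fun y => cmp ε i y - η y * cmp ε i y := by
      funext y; ring
    rw [e4]
    have e5 := ((cmp_contDiff hε i).differentiable (by simp) (px p)).hasFDerivAt.sub
      ((hη.mul (cmp_contDiff hε i)).differentiable (by simp) (px p)).hasFDerivAt
    have e6 : fderiv ℝ (fun y => cmp ε i y - η y * cmp ε i y) (px p) =
      fderiv ℝ (cmp ε i) (px p) - fderiv ℝ (fun y => η y * cmp ε i y) (px p) := e5.fderiv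
    rw [e6]
    rfl
  have hzc : ∀ (j : Fin m), fderiv ℝ (fun q : V (m + 2) => η (px q) * cmp ε j (pz q)) p
      (EuclideanSpace.single j.succ.succ 1) =
        η (px p) * fderiv ℝ (cmp ε j) (pz p) (EuclideanSpace.single j 1) := by
    intro j
    have e1 : HasFDerivAt (fun q : V (m + 2) => px q) (pxL m) p := (pxL m).hasFDerivAt
    have e1' : HasFDerivAt (fun q : V (m + 2) => pz q) (pzL m) p := (pzL m).hasFDerivAt
    have e2 := (hη.differentiable (by simp) (px p)).hasFDerivAt.comp p e1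
    have e3 := ((cmp_contDiff hε j).differentiable (by simp) (pz p)).hasFDerivAt.comp p e1'
    have e4 := e2.mul e3
    have e5 : fderiv ℝ (fun q : V (m + 2) => η (px q) * cmp ε j (pz q)) p = _ := e4.fderiv
    rw [e5]
    simp only [ContinuousLinearMap.add_apply, ContinuousLinearMap.smul_apply, Function.comp_apply,
      ContinuousLinearMap.comp_apply, pxL_apply, pzL_apply, px_singles, pz_singles, map_zero,
      smul_eq_mul, mul_zero, add_zero]
  rw [hxc, hxc, px_single0, px_single1]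
  simp only [hzc]
  rw [← Finset.mul_sum, cmp_div hε, dv_eq, ← cmp_div hε (px p), Fin.sum_univ_two, Dx,
    Fin.sum_univ_two]
  ring

theorem per_step {m : ℕ} {ε : ℝ} (hε : 0 < ε) {η : Pl → ℝ} (hη : ContDiff ℝ 1 η)
    (hη1 : ∀ x, 0 ≤ η x ∧ η x ≤ 1) {E : Set (V (m + 2))} (hE : IsCompact E) :
    ENNReal.ofReal (∫ p in E, (dv m ε p - Dx ε η (px p) - (1 - η (px p)) * dcmp ε (pz p)))
      ≤ perimeter E := by
  obtain ⟨R, hR⟩ := hE.isBounded.subset_closedBall 0
  set R' := max R 1 with hR'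
  have hR0 : 0 < R' := lt_of_lt_of_le one_pos (le_max_right _ _)
  let f : ContDiffBump (0 : V (m + 2)) := ⟨R' + 1, R' + 2, by linarith, by linarith⟩
  have hfc : ContDiff ℝ 1 (f : V (m + 2) → ℝ) := f.contDiff
  set φ : V (m + 2) → V (m + 2) := fun p => f p • wf m ε η p with hφ
  have hφc : ContDiff ℝ 1 φ := hfc.smul (wf_contDiff hε hη)
  have hφs : HasCompactSupport φ := f.hasCompactSupport.smul_right
  have hφn : ∀ x, ‖φ x‖ ≤ 1 := by
    intro x
    simp only [hφ, norm_smul, Real.norm_eq_abs, abs_of_nonneg f.nonneg]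
    exact mul_le_one₀ f.le_one (norm_nonneg _) (wf_norm hε hη1 x)
  have h1 : ENNReal.ofReal (∫ p in E, divg φ p) ≤ perimeter E :=
    le_iSup (fun φ : {φ : V (m + 2) → V (m + 2) // ContDiff ℝ 1 φ ∧ HasCompactSupport φ ∧
      ∀ x, ‖φ x‖ ≤ 1} => ENNReal.ofReal (∫ x in E, divg φ.1 x)) ⟨φ, hφc, hφs, hφn⟩
  refine le_trans (le_of_eq ?_) h1
  congr 1
  apply setIntegral_congr_fun hE.measurableSet
  intro p hp
  simp only
  rw [← wf_div hε hη]
  have hev : φ =ᶠ[𝓝 p] wf m ε η := by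
    have hpb : p ∈ ball (0 : V (m + 2)) (R' + 1) := by
      have h2 := hR hp
      rw [mem_closedBall_zero_iff] at h2
      rw [mem_ball_zero_iff]
      have : R ≤ R' := le_max_left _ _
      linarith
    filter_upwards [isOpen_ball.mem_nhds hpb] with q hq
    have : f q = 1 := f.one_of_mem_closedBall (ball_subset_closedBall hq)
    simp only [hφ, this, one_smul]
  unfold divg
  rw [hev.fderiv_eq]

end Pool.Agent.R748.SPE
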