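import Mathlib
import Pool.Agent.R748.SPE.Step

open MeasureTheory Metric Set Filter Topology
open scoped ENNReal

noncomputable section

namespace Pool.Agent.R748.SPE

open Pool.Agent.R921.SP

theorem planar_triv (j : Fin 2) {K : Set Pl} (hK : IsCompact K) (hKc : Convex ℝ K)
    {R : ℝ} (hR : 0 ≤ R) (hKR : K ⊆ closedBall 0 R)
    {g : Pl → ℝ} (hg : ContDiff ℝ 1 g) (hg1 : ∀ x, |g x| ≤ 1) :
    |∫ x in K, fderiv ℝ g x (EuclideanSpace.single j 1)| ≤ 4 * R := by
  set F : Pl → ℝ := fun x => fderiv ℝ g x (EuclideanSpace.single j 1) with hF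
  have hFc : Continuous F := fd_cont hg _
  have hint : IntegrableOn F K := hFc.continuousOn.integrableOn_compact hK
  have h0 := mp_pl j
  have h1 : ∫ x in K, F x = ∫ a, ∫ b in {b : ℝ | ept j a b ∈ K}, F (ept j a b) := by
    rw [← integral_indicator hK.measurableSet]
    have hi : Integrable (K.indicator F) := hint.integrable_indicator hK.measurableSet
    rw [← h0.map_eq, integral_map h0.measurable.aemeasurable
      (by rw [h0.map_eq]; exact hi.aestronglyMeasurable)]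
    have hi2 : Integrable (fun q : ℝ × ℝ => K.indicator F (ept j q.1 q.2)) (volume.prod volume) :=
      (h0.integrable_comp hi.aestronglyMeasurable).2 hi
    rw [integral_prod _ hi2]
    congr 1
    funext a
    rw [← integral_indicator (sec_compact j hK a).measurableSet]
    rfl
  rw [h1, ← Real.norm_eq_abs]
  have h2 : ∀ a, ‖∫ b in {b : ℝ | ept j a b ∈ K}, F (ept j a b)‖ ≤
      (Icc (-R) R).indicator (fun _ => (2:ℝ)) a := by
    intro a
    rcases sec_cases j hK hKc a with h | ⟨α, β, hαβ, h⟩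
    · rw [h]
      simp only [setIntegral_empty, norm_zero]
      exact indicator_nonneg (fun _ _ => by norm_num) a
    · have hα : ept j a α ∈ K := by
        have : α ∈ {b : ℝ | ept j a b ∈ K} := by rw [h]; exact left_mem_Icc.2 hαβ
        exact this
      have ha : a ∈ Icc (-R) R := by
        have h3 := hKR hα
        rw [mem_closedBall_zero_iff] at h3
        exact abs_le.1 ((ept_norm j a α).1.trans h3)
      rw [h, inner_eq j hg a hαβ, indicator_of_mem ha, Real.norm_eq_abs]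
      have h3 := abs_le.1 (hg1 (ept j a α))
      have h4 := abs_le.1 (hg1 (ept j a β))
      rw [abs_le]
      constructor <;> linarith [h3.1, h3.2, h4.1, h4.2]
  have h3 : Integrable ((Icc (-R) R).indicator (fun _ => (2:ℝ))) :=
    (integrableOn_const (by simp)).integrable_indicator measurableSet_Icc
  refine (norm_integral_le_of_norm_le h3 (ae_of_all _ h2)).trans ?_
  rw [integral_indicator measurableSet_Icc, integral_const, smul_eq_mul, Measure.real,
    Measure.restrict_apply_univ, Real.volume_Icc, ENNReal.toReal_ofReal (by linarith)]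
  linarith

theorem planar_balls (j : Fin 2) {K Km Kp : Set Pl} (hK : IsCompact K) (hKc : Convex ℝ K)
    (hKm : IsCompact Km) (hKmc : Convex ℝ Km) (hsub : K ⊆ Km) (hsub' : Kp ⊆ K) {N : ℕ} {ρ : ℝ}
    (hρ : 0 ≤ ρ) (c : Fin N → Pl) (hc : Km \ Kp ⊆ ⋃ i, closedBall (c i) ρ)
    {g : Pl → ℝ} (hg : ContDiff ℝ 1 g) (hg1 : ∀ x, |g x| ≤ 1) (hg0 : ∀ x ∈ frontier Km, g x = 0) :
    |∫ x in K, fderiv ℝ g x (EuclideanSpace.single j 1)| ≤ 4 * N * ρ := by
  set Sh : Set ℝ := ⋃ i, Icc (c i (1 - j) - ρ) (c i (1 - j) + ρ) with hSh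
  have hm : MeasurableSet Sh := MeasurableSet.iUnion fun i => measurableSet_Icc
  have hv : volume Sh ≤ ENNReal.ofReal (2 * N * ρ) := by
    refine (measure_iUnion_le _).trans ?_
    rw [tsum_fintype]
    simp only [Real.volume_Icc]
    have : ∀ i : Fin N, ENNReal.ofReal (c i (1 - j) + ρ - (c i (1 - j) - ρ)) =
        ENNReal.ofReal (2 * ρ) := by
      intro i; congr 1; ring
    rw [Finset.sum_congr rfl (fun i _ => this i), Finset.sum_const, Finset.card_univ,
      Fintype.card_fin, nsmul_eq_mul, ← ENNReal.ofReal_natCast, ← ENNReal.ofReal_mul (by positivity)]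
    apply le_of_eq
    congr 1
    ring
  have hvf : volume Sh ≠ ⊤ := ne_top_of_le_ne_top ENNReal.ofReal_ne_top hv
  have h1 := planar_bound j hK hKc hKm hKmc hsub hm hvf (by
    intro a ha b hb
    by_contra hcon
    have h2 : ept j a b ∈ Km \ Kp := ⟨hb, fun h => hcon (hsub' h)⟩
    have h3 := hc h2
    rw [mem_iUnion] at h3
    obtain ⟨i, hi⟩ := h3
    apply ha
    rw [hSh, mem_iUnion]
    refine ⟨i, ?_⟩
    rw [mem_closedBall, dist_eq_norm] at hi
    have h4 := PiLp.norm_apply_le (p := 2) (ept j a b - c i) (1 - j)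
    rw [PiLp.sub_apply, ept_fst, Real.norm_eq_abs] at h4
    have h5 := abs_le.1 (h4.trans hi)
    exact ⟨by linarith [h5.1], by linarith [h5.2]⟩) hg hg1 hg0
  have h2 : (volume Sh).toReal ≤ 2 * N * ρ := by
    have := ENNReal.toReal_mono ENNReal.ofReal_ne_top hv
    rwa [ENNReal.toReal_ofReal (by positivity)] at this
  linarith

lemma g_abs {ε : ℝ} (hε : 0 < ε) {η : Pl → ℝ} (hη1 : ∀ x, 0 ≤ η x ∧ η x ≤ 1) (i : Fin 2) (x : Pl) :
    |η x * cmp ε i x| ≤ 1 := by
  rw [abs_mul, abs_of_nonneg (hη1 x).1]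
  exact mul_le_one₀ (hη1 x).2 (abs_nonneg _) (cmp_abs hε i x)

lemma Dx_int {ε : ℝ} (hε : 0 < ε) {η : Pl → ℝ} (hη : ContDiff ℝ 1 η) {K : Set Pl}
    (hK : IsCompact K) : ∫ x in K, Dx ε η x =
      ∑ i : Fin 2, ∫ x in K, fderiv ℝ (fun y => η y * cmp ε i y) x (EuclideanSpace.single i 1) := by
  unfold Dx
  apply integral_finsetSum
  intro i _
  exact (fd_cont (hη.mul (cmp_contDiff hε i)) _).continuousOn.integrableOn_compact hK

lemma Dx_triv {ε : ℝ} (hε : 0 < ε) {η : Pl → ℝ} (hη : ContDiff ℝ 1 η)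
    (hη1 : ∀ x, 0 ≤ η x ∧ η x ≤ 1) {K : Set Pl} (hK : IsCompact K) (hKc : Convex ℝ K) {R : ℝ}
    (hR : 0 ≤ R) (hKR : K ⊆ closedBall 0 R) : |∫ x in K, Dx ε η x| ≤ 8 * R := by
  rw [Dx_int hε hη hK, Fin.sum_univ_two]
  have h0 := planar_triv 0 hK hKc hR hKR (hη.mul (cmp_contDiff hε 0)) (g_abs hε hη1 0)
  have h1 := planar_triv 1 hK hKc hR hKR (hη.mul (cmp_contDiff hε 1)) (g_abs hε hη1 1)
  refine (abs_add_le _ _).trans ?_
  linarith

lemma Dx_balls {ε : ℝ} (hε : 0 < ε) {η : Pl → ℝ} (hη : ContDiff ℝ 1 η)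
    (hη1 : ∀ x, 0 ≤ η x ∧ η x ≤ 1) {K Km Kp : Set Pl} (hK : IsCompact K) (hKc : Convex ℝ K)
    (hKm : IsCompact Km) (hKmc : Convex ℝ Km) (hsub : K ⊆ Km) (hsub' : Kp ⊆ K) {N : ℕ} {ρ : ℝ}
    (hρ : 0 ≤ ρ) (c : Fin N → Pl) (hc : Km \ Kp ⊆ ⋃ i, closedBall (c i) ρ)
    (hη0 : ∀ x ∈ frontier Km, η x = 0) : |∫ x in K, Dx ε η x| ≤ 8 * N * ρ := by
  rw [Dx_int hε hη hK, Fin.sum_univ_two]
  have h0 := planar_balls 0 hK hKc hKm hKmc hsub hsub' hρ c hc (hη.mul (cmp_contDiff hε 0))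
    (g_abs hε hη1 0) (fun x hx => by rw [hη0 x hx, zero_mul])
  have h1 := planar_balls 1 hK hKc hKm hKmc hsub hsub' hρ c hc (hη.mul (cmp_contDiff hε 1))
    (g_abs hε hη1 1) (fun x hx => by rw [hη0 x hx, zero_mul])
  refine (abs_add_le _ _).trans ?_
  linarith

/-- a smooth function vanishing on a compact null set, with small defect -/
lemma exists_eta {W : Set Pl} (hW : IsClosed W) (hW0 : volume W = 0) {δ : ℝ} (hδ : 0 < δ) :
    ∃ η : Pl → ℝ, ContDiff ℝ 1 η ∧ (∀ x, 0 ≤ η x ∧ η x ≤ 1) ∧ (∀ x ∈ W, η x = 0) ∧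
      ∃ U : Set Pl, IsOpen U ∧ volume U < ENNReal.ofReal δ ∧ ∀ x, x ∉ U → η x = 1 := by
  obtain ⟨U, hWU, hU, hUv⟩ := W.exists_isOpen_lt_of_lt (μ := volume) (ENNReal.ofReal δ)
    (by rw [hW0]; exact ENNReal.ofReal_pos.2 hδ)
  obtain ⟨f, hf0, hf1, hf⟩ := exists_contMDiffMap_zero_one_of_isClosed (n := 1)
    (modelWithCornersSelf ℝ Pl) hW hU.isClosed_compl
    (by rw [Set.disjoint_compl_right_iff_subset]; exact hWU)
  refine ⟨f, ?_, fun x => hf x, fun x hx => hf0 hx, U, hU, hUv, fun x hx => hf1 hx⟩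
  exact f.contMDiff.contDiff

/-- null sets of radii -/
lemma norm_null {m : ℕ} (hm : 1 ≤ m) {A : Set ℝ} (hA : volume A = 0) :
    ∀ᵐ z : V m, ‖z‖ ∈ Ioo (0:ℝ) 1 → ‖z‖ ∉ A := by
  have hfr : Module.finrank ℝ (V m) = m := finrank_euclideanSpace_fin
  have : Nontrivial (V m) := Module.nontrivial_of_finrank_pos (R := ℝ) (by omega)
  set B : Set ℝ := toMeasurable volume A ∩ Ioo 0 1 with hB
  have hBm : MeasurableSet B := (measurableSet_toMeasurable _ _).inter measurableSet_Ioo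
  have hB0 : volume B = 0 := by
    apply measure_mono_null inter_subset_left
    rw [measure_toMeasurable, hA]
  have hpre : MeasurableSet ((fun z : V m => ‖z‖) ⁻¹' B) := measurable_norm hBm
  have hfin : volume ((fun z : V m => ‖z‖) ⁻¹' B) ≠ ⊤ := by
    have hcb : volume (closedBall (0 : V m) 1) ≠ ⊤ := measure_closedBall_lt_top.ne
    apply ne_top_of_le_ne_top hcb
    apply measure_mono
    intro z hz
    rw [mem_closedBall_zero_iff]
    exact hz.2.2.le
  have h1 := integral_fun_norm_addHaar (volume : Measure (V m)) (B.indicator (fun _ => (1:ℝ)))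
  have h2 : ∫ y in Ioi (0:ℝ), y ^ (Module.finrank ℝ (V m) - 1) • B.indicator (fun _ => (1:ℝ)) y = 0 := by
    apply integral_eq_zero_of_ae
    have h3 : ∀ᵐ y : ℝ, y ∉ B := (measure_eq_zero_iff_ae_notMem.1 hB0)
    filter_upwards [ae_restrict_of_ae h3] with y hy
    simp [indicator_of_notMem hy]
  rw [h2, smul_zero, smul_zero] at h1
  have h3 : (fun z : V m => B.indicator (fun _ => (1:ℝ)) ‖z‖) =
      ((fun z : V m => ‖z‖) ⁻¹' B).indicator (fun _ => (1:ℝ)) := by
    funext z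
    by_cases h : ‖z‖ ∈ B
    · rw [indicator_of_mem h, indicator_of_mem (show z ∈ (fun z : V m => ‖z‖) ⁻¹' B from h)]
    · rw [indicator_of_notMem h,
        indicator_of_notMem (show z ∉ (fun z : V m => ‖z‖) ⁻¹' B from h)]
  rw [h3, integral_indicator hpre, integral_const, smul_eq_mul, mul_one, Measure.real,
    Measure.restrict_apply_univ, ENNReal.toReal_eq_zero_iff] at h1
  rcases h1 with h1 | h1
  · filter_upwards [measure_eq_zero_iff_ae_notMem.1 h1] with z hz hz1 hzA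
    exact hz ⟨subset_toMeasurable _ _ hzA, hz1⟩
  · exact absurd h1 hfin

end Pool.Agent.R748.SPE
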