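import Mathlib
import Pool.Agent.R748.SPE.Triv

open MeasureTheory Metric Set Filter Topology
open scoped ENNReal

noncomputable section

namespace Pool.Agent.R748.SPE

open Pool.Agent.R921.SP

variable {m N : ℕ} {K : ℝ → Set Pl}

/-- the body as a subset of the product -/
def SS (m : ℕ) (K : ℝ → Set Pl) : Set (Pl × V m) := {q | q.1 ∈ K ‖q.2‖}

lemma SS_closed (hG : Good N K) : IsClosed (SS m K) := by
  have h : SS m K = ⋂ r' : ℝ, ({q : Pl × V m | ‖q.2‖ ≤ r'} ∪ {q | q.1 ∈ K r'}) := by
    ext q
    simp only [SS, mem_iInter, mem_union]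
    constructor
    · intro hq r'
      by_cases h : ‖q.2‖ ≤ r'
      · exact Or.inl h
      · exact Or.inr (hG.anti (not_le.1 h).le hq)
    · intro h
      apply hG.left
      intro r' hr'
      rcases h r' with h | h
      · exact absurd h (not_le.2 hr')
      · exact h
  rw [h]
  apply isClosed_iInter
  intro r'
  apply IsClosed.union
  · exact isClosed_le (by fun_prop) continuous_const
  · exact (hG.compact r').isClosed.preimage continuous_fst

lemma K_empty_of (hG : Good N K) {r : ℝ} {x : Pl} (h : x ∈ K r) : r ≤ 1 := by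
  by_contra hcon
  rw [hG.empty r (not_le.1 hcon)] at h
  exact h

lemma SS_compact (hG : Good N K) : IsCompact (SS m K) := by
  apply ((hG.compact 0).prod (isCompact_closedBall (0 : V m) 1)).of_isClosed_subset (SS_closed hG)
  intro q hq
  refine ⟨hG.anti (norm_nonneg _) hq, ?_⟩
  rw [mem_closedBall_zero_iff]
  exact K_empty_of hG hq

lemma split_cont (m : ℕ) : Continuous (fun p : V (m + 2) => (px p, pz p)) :=
  (pxL m).continuous.prodMk (pzL m).continuous

lemma lift_compact (hG : Good N K) : IsCompact (lift m K) := by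
  obtain ⟨R, hR⟩ := (hG.compact 0).isBounded.subset_closedBall 0
  apply (isCompact_closedBall (0 : V (m + 2)) (max R 0 + 1)).of_isClosed_subset
  · exact (SS_closed (m := m) hG).preimage (split_cont m)
  · intro p hp
    have h1 : px p ∈ K 0 := hG.anti (norm_nonneg _) hp
    have h2 := hR h1
    have h3 : ‖pz p‖ ≤ 1 := K_empty_of hG hp
    rw [mem_closedBall_zero_iff] at h2 ⊢
    have h4 := norm_split p
    have h5 : ‖px p‖ ≤ max R 0 := h2.trans (le_max_left _ _)
    have h6 : 0 ≤ max R 0 := le_max_right _ _
    have h7 : ‖p‖ ^ 2 ≤ (max R 0 + 1) ^ 2 := by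
      rw [h4]
      nlinarith [norm_nonneg (px p), norm_nonneg (pz p)]
    exact (abs_le_of_sq_le_sq' h7 (by linarith)).2

lemma int_lift (hG : Good N K) {F : Pl × V m → ℝ} (hF : Continuous F) :
    ∫ p in lift m K, F (px p, pz p) = ∫ z, ∫ x in K ‖z‖, F (x, z) ∧
      Integrable (fun z : V m => ∫ x in K ‖z‖, F (x, z)) := by
  have hS := SS_compact (m := m) hG
  have hmp := mp_split m
  have hi : Integrable ((SS m K).indicator F) ((volume : Measure Pl).prod (volume : Measure (V m))) :=
    (hF.continuousOn.integrableOn_compact hS).integrable_indicator hS.measurableSet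
  have hsec : ∀ z : V m, (fun x => (SS m K).indicator F (x, z)) =
      (K ‖z‖).indicator (fun x => F (x, z)) := by
    intro z
    funext x
    by_cases h : x ∈ K ‖z‖
    · rw [indicator_of_mem h, indicator_of_mem (show (x, z) ∈ SS m K from h)]
    · rw [indicator_of_notMem h, indicator_of_notMem (show (x, z) ∉ SS m K from h)]
  have hin : ∀ z : V m, ∫ x, (SS m K).indicator F (x, z) = ∫ x in K ‖z‖, F (x, z) := by
    intro z
    rw [hsec z, integral_indicator (hG.compact _).measurableSet]
  constructor
  · have h1 : ∫ p in lift m K, F (px p, pz p) = ∫ q in SS m K, F q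
        ∂((volume : Measure Pl).prod (volume : Measure (V m))) := by
      rw [← hmp.map_eq, setIntegral_map hS.measurableSet
        (by rw [hmp.map_eq]; exact hF.aestronglyMeasurable) hmp.measurable.aemeasurable]
      rfl
    rw [h1, ← integral_indicator hS.measurableSet, integral_prod_symm _ hi]
    congr 1
    funext z
    exact hin z
  · have h2 := hi.integral_prod_right
    simpa only [hin] using h2

/-- the union of the frontiers on the mesh -/
def WJ (K : ℝ → Set Pl) (J : ℕ) : Set Pl :=
  ⋃ j ∈ Finset.range (J + 2), frontier (K ((j : ℝ) / (J + 1)))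

lemma WJ_closed (J : ℕ) : IsClosed (WJ K J) :=
  (Finset.range (J + 2)).finite_toSet.isClosed_biUnion fun _ _ => isClosed_frontier

lemma WJ_null (hG : Good N K) (J : ℕ) : volume (WJ K J) = 0 := by
  unfold WJ
  refine (measure_biUnion_null_iff (I := (↑(Finset.range (J + 2)) : Set ℕ))
    (Finset.range (J + 2)).countable_toSet).2 ?_
  intro j _
  exact (hG.convex _).addHaar_frontier volume

theorem stmtE : StmtE := by
  intro m N K ε hm hG hε
  obtain ⟨R₀, hR₀⟩ := (hG.compact 0).isBounded.subset_closedBall 0
  set R := max R₀ 1 with hRdef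
  have hR0 : 0 ≤ R := zero_le_one.trans (le_max_right _ _)
  have hR : K 0 ⊆ closedBall 0 R := hR₀.trans (closedBall_subset_closedBall (le_max_left _ _))
  have hKR : ∀ z : V m, K ‖z‖ ⊆ closedBall 0 R := fun z => (hG.anti (norm_nonneg z)).trans hR
  have hex : ∀ J : ℕ, ∃ η : Pl → ℝ, ContDiff ℝ 1 η ∧ (∀ x, 0 ≤ η x ∧ η x ≤ 1) ∧
      (∀ x ∈ WJ K J, η x = 0) ∧
      ∃ U : Set Pl, IsOpen U ∧ volume U < ENNReal.ofReal (1 / ((J : ℝ) + 1)) ∧
        ∀ x, x ∉ U → η x = 1 := fun J => exists_eta (WJ_closed J) (WJ_null hG J) (by positivity)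
  choose η hη hη1 hη0 U hU hUv hηU using hex
  set I : ℕ → V m → ℝ := fun J z => ∫ x in K ‖z‖, Dx ε (η J) x with hI
  have hDc : ∀ J, Continuous (Dx ε (η J)) := fun J => Dx_cont hε (hη J)
  have hdc : Continuous (dcmp ε : V m → ℝ) := dcmp_cont hε
  have hdc2 : Continuous (dcmp ε : Pl → ℝ) := dcmp_cont hε
  -- claim A
  have hA : ∀ J z, ‖I J z‖ ≤ (closedBall (0 : V m) 1).indicator (fun _ => 8 * R) z := by
    intro J z
    by_cases hz : z ∈ closedBall (0 : V m) 1
    · rw [indicator_of_mem hz, Real.norm_eq_abs]
      exact Dx_triv hε (hη J) (hη1 J) (hG.compact _) (hG.convex _) hR0 (hKR z)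
    · rw [indicator_of_notMem hz]
      rw [mem_closedBall_zero_iff, not_le] at hz
      simp only [hI, hG.empty _ hz, setIntegral_empty, norm_zero, le_refl]
  have hAi : Integrable ((closedBall (0 : V m) 1).indicator (fun _ => 8 * R)) :=
    (integrableOn_const measure_closedBall_lt_top.ne).integrable_indicator measurableSet_closedBall
  -- claim B
  have hfr : Module.finrank ℝ (V m) = m := finrank_euclideanSpace_fin
  have hnt : Nontrivial (V m) := Module.nontrivial_of_finrank_pos (R := ℝ) (by omega)
  have hB : ∀ᵐ z : V m, Tendsto (fun J => I J z) atTop (𝓝 0) := by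
    have hs := hG.small
    rw [ae_iff] at hs
    have h1 := norm_null hm hs
    have h2 : ∀ᵐ z : V m, z ∉ sphere (0 : V m) 1 :=
      measure_eq_zero_iff_ae_notMem.1 (Measure.addHaar_sphere volume 0 1)
    have h3 : ∀ᵐ z : V m, z ∉ ({0} : Set (V m)) :=
      measure_eq_zero_iff_ae_notMem.1 (measure_singleton _)
    filter_upwards [h1, h2, h3] with z hz1 hz2 hz3
    rcases lt_trichotomy ‖z‖ 1 with hlt | heq | hgt
    · have hpos : 0 < ‖z‖ := norm_pos_iff.2 (by simpa using hz3)
      have hr := hz1 ⟨hpos, hlt⟩
      simp only [mem_ofPred_eq, not_not] at hr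
      have hr := hr ⟨hpos, hlt⟩
      set r := ‖z‖ with hrdef
      rw [Metric.tendsto_atTop]
      intro e he
      obtain ⟨r1, r2, hr1, hr2, c, hc⟩ := hr (e / (8 * N + 8)) (by positivity)
      have hδ : 0 < min (r - r1) (r2 - r) := lt_min (by linarith) (by linarith)
      obtain ⟨J₀, hJ₀⟩ := exists_nat_one_div_lt hδ
      refine ⟨J₀, fun J hJ => ?_⟩
      have hJ1 : 1 / ((J : ℝ) + 1) < min (r - r1) (r2 - r) := by
        refine lt_of_le_of_lt ?_ hJ₀
        apply one_div_le_one_div_of_le (by positivity)
        have : (J₀ : ℝ) ≤ J := by exact_mod_cast hJ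
        linarith
      have hJp : (0:ℝ) < (J : ℝ) + 1 := by positivity
      set j := ⌊r * ((J : ℝ) + 1)⌋₊ with hj
      have hj1 : (j : ℝ) ≤ r * ((J : ℝ) + 1) := Nat.floor_le (by positivity)
      have hj2 : r * ((J : ℝ) + 1) < (j : ℝ) + 1 := Nat.lt_floor_add_one _
      have e1 : (j : ℝ) / ((J : ℝ) + 1) ≤ r := by rw [div_le_iff₀ hJp]; exact hj1
      have e2 : r ≤ ((j : ℝ) + 1) / ((J : ℝ) + 1) := by rw [le_div_iff₀ hJp]; exact hj2.le
      have e3 : r1 ≤ (j : ℝ) / ((J : ℝ) + 1) := by
        have : ((j : ℝ) + 1) / ((J : ℝ) + 1) = (j : ℝ) / ((J : ℝ) + 1) + 1 / ((J : ℝ) + 1) := by ring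
        have h5 := hJ1.trans_le (min_le_left _ _)
        linarith
      have e4 : ((j : ℝ) + 1) / ((J : ℝ) + 1) ≤ r2 := by
        have : ((j : ℝ) + 1) / ((J : ℝ) + 1) = (j : ℝ) / ((J : ℝ) + 1) + 1 / ((J : ℝ) + 1) := by ring
        have h5 := hJ1.trans_le (min_le_right _ _)
        linarith
      have e5 : j < J + 2 := by
        have : (j : ℝ) < (J : ℝ) + 1 := by
          refine hj1.trans_lt ?_
          nlinarith
        have : j < J + 1 := by exact_mod_cast this
        omega
      have hfrz : ∀ x ∈ frontier (K ((j : ℝ) / ((J : ℝ) + 1))), η J x = 0 := by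
        intro x hx
        apply hη0 J x
        unfold WJ
        rw [mem_iUnion₂]
        exact ⟨j, Finset.mem_range.2 e5, hx⟩
      have hmain := Dx_balls hε (hη J) (hη1 J) (hG.compact r) (hG.convex r)
        (hG.compact ((j : ℝ) / ((J : ℝ) + 1))) (hG.convex _) (hG.anti e1) (hG.anti e2)
        (ρ := e / (8 * N + 8)) (by positivity) c
        ((sdiff_subset_sdiff (hG.anti e3) (hG.anti e4)).trans hc) hfrz
      rw [Real.dist_eq, sub_zero]
      refine lt_of_le_of_lt hmain ?_
      rw [mul_div_assoc', div_lt_iff₀ (by positivity)]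
      nlinarith
    · exact absurd (mem_sphere_zero_iff_norm.2 heq) hz2
    · have : (fun J => I J z) = fun _ => 0 := by
        funext J
        simp only [hI, hG.empty _ hgt, setIntegral_empty]
      rw [this]
      exact tendsto_const_nhds
  -- claim C
  have hFi : ∀ J, ∫ p in lift m K, Dx ε (η J) (px p) = ∫ z, I J z ∧ Integrable (I J) := fun J =>
    int_lift (F := fun q => Dx ε (η J) q.1) hG ((hDc J).comp continuous_fst)
  have hC : Tendsto (fun J => ∫ z, I J z) atTop (𝓝 0) := by
    have := tendsto_integral_of_dominated_convergence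
      ((closedBall (0 : V m) 1).indicator (fun _ => 8 * R))
      (fun J => (hFi J).2.aestronglyMeasurable) hAi (fun J => ae_of_all _ (hA J)) hB
    simpa using this
  -- claim D
  have hlc := lift_compact (m := m) hG
  set Cm : ℝ := ((m : ℝ) + 1) / ε * (volume (closedBall (0 : V m) 1)).toReal with hCm
  have hD : ∀ J : ℕ, |∫ p in lift m K, (1 - η J (px p)) * dcmp ε (pz p)| ≤
      Cm * (1 / ((J : ℝ) + 1)) := by
    intro J
    have hηc := (hη J).continuous
    have hpx : Continuous (fun p : V (m + 2) => px p) := (pxL m).continuous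
    have hpz : Continuous (fun p : V (m + 2) => pz p) := (pzL m).continuous
    have h1 : ‖∫ p in lift m K, (1 - η J (px p)) * dcmp ε (pz p)‖ ≤
        ∫ p in lift m K, (((m : ℝ) + 1) / ε) * (1 - η J (px p)) := by
      apply norm_integral_le_of_norm_le
      · exact (continuous_const.mul (continuous_const.sub (hηc.comp hpx))).continuousOn.integrableOn_compact hlc
      · apply ae_of_all
        intro p
        rw [norm_mul, Real.norm_eq_abs, Real.norm_eq_abs,
          abs_of_nonneg (by linarith [(hη1 J (px p)).2]), mul_comm]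
        exact mul_le_mul_of_nonneg_right (dcmp_abs hε _) (by linarith [(hη1 J (px p)).2])
    rw [← Real.norm_eq_abs]
    refine h1.trans ?_
    rw [integral_const_mul]
    have h2 := int_lift (F := fun q : Pl × V m => 1 - η J q.1) hG
      (continuous_const.sub (hηc.comp continuous_fst))
    rw [h2.1]
    have h3 : ∀ z : V m, ∫ x in K ‖z‖, (1 - η J x) ≤
        (closedBall (0 : V m) 1).indicator (fun _ => 1 / ((J : ℝ) + 1)) z := by
      intro z
      by_cases hz : z ∈ closedBall (0 : V m) 1
      · rw [indicator_of_mem hz]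
        have hUfin : volume (U J) ≠ ⊤ := ((hUv J).trans ENNReal.ofReal_lt_top).ne
        have h4 : ∀ x, 1 - η J x ≤ (U J).indicator (fun _ => (1:ℝ)) x := by
          intro x
          by_cases hx : x ∈ U J
          · rw [indicator_of_mem hx]; linarith [(hη1 J x).1]
          · rw [indicator_of_notMem hx, hηU J x hx]; simp
        have h5 : Integrable ((U J).indicator (fun _ => (1:ℝ))) :=
          (integrableOn_const hUfin).integrable_indicator (hU J).measurableSet
        calc ∫ x in K ‖z‖, (1 - η J x) ≤ ∫ x in K ‖z‖, (U J).indicator (fun _ => (1:ℝ)) x := by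
              apply setIntegral_mono
              · exact (continuous_const.sub hηc).continuousOn.integrableOn_compact (hG.compact _)
              · exact h5.integrableOn
              · exact h4
          _ ≤ ∫ x, (U J).indicator (fun _ => (1:ℝ)) x :=
              setIntegral_le_integral h5 (ae_of_all _ fun x => indicator_nonneg (fun _ _ => zero_le_one) x)
          _ = (volume (U J)).toReal := by
              rw [integral_indicator (hU J).measurableSet, integral_const, smul_eq_mul, mul_one,
                Measure.real, Measure.restrict_apply_univ]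
          _ ≤ 1 / ((J : ℝ) + 1) := by
              have := ENNReal.toReal_mono ENNReal.ofReal_ne_top (hUv J).le
              rwa [ENNReal.toReal_ofReal (by positivity)] at this
      · rw [indicator_of_notMem hz]
        rw [mem_closedBall_zero_iff, not_le] at hz
        rw [hG.empty _ hz]
        simp
    have h6 : ∫ z : V m, ∫ x in K ‖z‖, (1 - η J x) ≤
        (volume (closedBall (0 : V m) 1)).toReal * (1 / ((J : ℝ) + 1)) := by
      have h7 : Integrable ((closedBall (0 : V m) 1).indicator (fun _ => 1 / ((J : ℝ) + 1))) :=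
        (integrableOn_const measure_closedBall_lt_top.ne).integrable_indicator
          measurableSet_closedBall
      refine (integral_mono h2.2 h7 h3).trans (le_of_eq ?_)
      rw [integral_indicator measurableSet_closedBall, integral_const, smul_eq_mul,
        Measure.real, Measure.restrict_apply_univ]
    calc ((m : ℝ) + 1) / ε * ∫ z : V m, ∫ x in K ‖z‖, (1 - η J x) ≤
        ((m : ℝ) + 1) / ε * ((volume (closedBall (0 : V m) 1)).toReal * (1 / ((J : ℝ) + 1))) :=
          mul_le_mul_of_nonneg_left h6 (by positivity)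
      _ = Cm * (1 / ((J : ℝ) + 1)) := by rw [hCm]; ring
  -- conclusion
  have hstep : ∀ J : ℕ, ENNReal.ofReal ((∫ p in lift m K, dv m ε p) - (∫ z, I J z) -
      ∫ p in lift m K, (1 - η J (px p)) * dcmp ε (pz p)) ≤ perimeter (lift m K) := by
    intro J
    refine le_trans (le_of_eq ?_) (per_step hε (hη J) (hη1 J) hlc)
    congr 1
    have hpx : Continuous (fun p : V (m + 2) => px p) := (pxL m).continuous
    have hpz : Continuous (fun p : V (m + 2) => pz p) := (pzL m).continuous
    have hdvc : Continuous (fun p : V (m + 2) => dv m ε p) := by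
      simp only [dv_eq]
      exact (hdc2.comp hpx).add (hdc.comp hpz)
    have i1 : IntegrableOn (fun p => dv m ε p) (lift m K) := hdvc.continuousOn.integrableOn_compact hlc
    have i2 : IntegrableOn (fun p : V (m + 2) => Dx ε (η J) (px p)) (lift m K) :=
      ((hDc J).comp hpx).continuousOn.integrableOn_compact hlc
    have i3 : IntegrableOn (fun p : V (m + 2) => (1 - η J (px p)) * dcmp ε (pz p)) (lift m K) :=
      ((continuous_const.sub ((hη J).continuous.comp hpx)).mul (hdc.comp hpz)).continuousOn.integrableOn_compact hlc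
    rw [← (hFi J).1]
    have e1 := integral_sub (i1.sub i2) i3
    have e2 := integral_sub i1 i2
    simp only [Pi.sub_apply] at e1 e2
    rw [e1, e2]
  have hlim : Tendsto (fun J : ℕ => ENNReal.ofReal ((∫ p in lift m K, dv m ε p) - (∫ z, I J z) -
      ∫ p in lift m K, (1 - η J (px p)) * dcmp ε (pz p))) atTop
      (𝓝 (ENNReal.ofReal (∫ p in lift m K, dv m ε p))) := by
    apply (ENNReal.continuous_ofReal.tendsto _).comp
    have h1 : Tendsto (fun J : ℕ => ∫ p in lift m K, (1 - η J (px p)) * dcmp ε (pz p)) atTop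
        (𝓝 0) := by
      apply squeeze_zero_norm (a := fun J : ℕ => Cm * (1 / ((J : ℝ) + 1)))
      · intro J; rw [Real.norm_eq_abs]; exact hD J
      · simpa using tendsto_one_div_add_atTop_nhds_zero_nat.const_mul Cm
    have h2 := (hC.const_sub (∫ p in lift m K, dv m ε p)).sub h1
    simpa using h2
  exact le_of_tendsto' hlim hstep

end Pool.Agent.R748.SPE
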